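import Pool.Agent.Helper51.REC.Goals1
import Pool.Agent.Helper40.RD.TRF

/-!
# Project REC (MP_fc6b1e_nt), packet H_SPL: complete splitting where `β` is locally a `p`-th power
-/

set_option autoImplicit false

namespace Pool.Agent.Helper48.REC

open Finset Polynomial

section val

variable {E Γ : Type*} [Field E] [LinearOrderedCommGroupWithZero Γ] (V : Valuation E Γ) {p : ℕ}
  {ε : E}

theorem val_root (hp : p ≠ 0) (hε : ε ^ p = 1) : V ε = 1 := by
  have h : (V ε) ^ p = 1 := by rw [← map_pow, hε, map_one]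
  rcases lt_trichotomy (V ε) 1 with h1 | h1 | h1
  · exact absurd h (pow_lt_one₀ zero_le h1 hp).ne
  · exact h1
  · exact absurd h (one_lt_pow₀ h1 hp).ne'

theorem val_one_sub_pow_le (h : V ε = 1) (k : ℕ) : V (1 - ε ^ k) ≤ V (1 - ε) := by
  rw [← mul_neg_geom_sum ε k, map_mul]
  refine mul_le_of_le_one_right' ?_
  refine V.map_sum_le fun i _ ↦ ?_
  rw [map_pow, h, one_pow]

theorem val_one_sub_pow (hp : p.Prime) (hε : IsPrimitiveRoot ε p) {k : ℕ} (hk : ¬ p ∣ k) :
    V (1 - ε ^ k) = V (1 - ε) := by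
  have h1 : V ε = 1 := val_root V hp.ne_zero hε.pow_eq_one
  refine le_antisymm (val_one_sub_pow_le V h1 k) ?_
  have hc : k.Coprime p := ((Nat.Prime.coprime_iff_not_dvd hp).2 hk).symm
  obtain ⟨m, -, hm⟩ := Nat.exists_mul_mod_eq_one_of_coprime hc hp.one_lt
  have h2 : ε = (ε ^ k) ^ m := by
    rw [← pow_mul, ← Nat.mod_add_div (k * m) p, hm, pow_add, pow_mul, hε.pow_eq_one, one_pow,
      mul_one, pow_one]
  have h3 : V (ε ^ k) = 1 := by rw [map_pow, h1, one_pow]
  have h4 := val_one_sub_pow_le V h3 m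
  rwa [← h2] at h4

theorem val_p (hp : p.Prime) (hε : IsPrimitiveRoot ε p) : V (1 - ε) ^ (p - 1) = V (p : E) := by
  have h := hp.one_lt
  obtain ⟨n, rfl⟩ : ∃ n, p = n + 1 := ⟨p - 1, by omega⟩
  have h1 := congrArg V hε.prod_one_sub_pow_eq_order
  rw [map_prod] at h1
  rw [Nat.cast_add, Nat.cast_one, ← h1, Nat.add_sub_cancel]
  rw [Finset.prod_congr rfl (g := fun _ ↦ V (1 - ε)) ?_, Finset.prod_const, card_range]
  intro i hi
  rw [mem_range] at hi
  exact val_one_sub_pow V hp hε (Nat.not_dvd_of_pos_of_lt (by omega) (by omega))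

theorem exists_close (hp : p.Prime) (hε : IsPrimitiveRoot ε p) {z : E}
    (h1 : V (z ^ p - 1) < 1) (h2 : V (z ^ p - 1) ≤ V (p : E) ^ 3) :
    ∃ i, V (z - ε ^ i) < V (1 - ε) := by
  by_contra hcon
  push Not at hcon
  set ρ := V (1 - ε) with hρ
  have hv : V ε = 1 := val_root V hp.ne_zero hε.pow_eq_one
  have hρ1 : ρ ≤ 1 := by
    refine (V.map_sub _ _).trans ?_
    rw [map_one, hv, max_self]
  have hρ0 : 0 < ρ := by
    rw [zero_lt_iff, hρ, V.ne_zero_iff, sub_ne_zero]
    exact fun h ↦ hε.ne_one hp.one_lt h.symm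
  have h3 : ρ ^ p ≤ V (z ^ p - 1) := by
    have h := X_pow_sub_C_eq_prod hε hp.pos (one_pow p)
    have h4 := congrArg (Polynomial.eval z) h
    rw [eval_prod] at h4
    simp only [eval_sub, eval_pow, eval_X, eval_C, mul_one, map_one, eval_one] at h4
    rw [h4, map_prod]
    calc ρ ^ p = ∏ _i ∈ range p, ρ := by rw [prod_const, card_range]
      _ ≤ _ := Finset.prod_le_prod' fun i _ ↦ hcon i
  rcases hρ1.eq_or_lt with h5 | h5
  · rw [h5, one_pow] at h3
    exact absurd h1 (not_lt.2 h3)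
  · rw [← val_p V hp hε, ← pow_mul] at h2
    have h6 : ρ ^ ((p - 1) * 3) < ρ ^ p := by
      refine pow_lt_pow_right_of_lt_one₀ hρ0 h5 ?_
      have := hp.two_le
      omega
    exact absurd (h3.trans h2) (not_le.2 h6)

theorem close_unique (hp : p.Prime) (hε : IsPrimitiveRoot ε p) {z : E} {i k : ℕ}
    (h1 : V (z - ε ^ i) < V (1 - ε)) (h2 : V (ε ^ k * z - ε ^ i) < V (1 - ε)) : p ∣ k := by
  by_contra hk
  have hv : V ε = 1 := val_root V hp.ne_zero hε.pow_eq_one
  have h3 : V (ε ^ i * (1 - ε ^ k)) < V (1 - ε) := by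
    have e : ε ^ i * (1 - ε ^ k) = ε ^ k * (z - ε ^ i) - (ε ^ k * z - ε ^ i) := by ring
    rw [e]
    refine lt_of_le_of_lt (V.map_sub _ _) (max_lt ?_ h2)
    rw [map_mul, map_pow, hv, one_pow, one_mul]
    exact h1
  rw [map_mul, map_pow, hv, one_pow, one_mul, val_one_sub_pow V hp hε hk] at h3
  exact lt_irrefl _ h3

end val

section main

open NumberField Module IsDedekindDomain Pool.Agent.Helper51.RP Pool.Agent.Helper42.PP
open Pool.Agent.Helper51.REC Pool.Agent.Helper40.RS Pool.Agent.Helper40.RD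

theorem val_up {F E : Type} [Field F] [NumberField F] [Field E] [NumberField E] [Algebra F E]
    {v : HeightOneSpectrum (𝓞 F)} {w : HeightOneSpectrum (𝓞 E)} (h : Above w v) (x : F) :
    w.valuation E (algebraMap F E x) =
      v.valuation F x ^ v.asIdeal.ramificationIdx' w.asIdeal := by
  rw [valW, bel_of_above h]

theorem ram_ne {F E : Type} [Field F] [NumberField F] [Field E] [NumberField E] [Algebra F E]
    {v : HeightOneSpectrum (𝓞 F)} {w : HeightOneSpectrum (𝓞 E)} (h : Above w v) :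
    v.asIdeal.ramificationIdx' w.asIdeal ≠ 0 := by
  intro h0
  obtain ⟨x, hx, hx0⟩ := Submodule.exists_mem_ne_zero_of_ne_bot v.ne_bot
  have h1 := val_up h (algebraMap (𝓞 F) F x)
  rw [h0, pow_zero] at h1
  have h2 : algebraMap F E (algebraMap (𝓞 F) F x) =
      algebraMap (𝓞 E) E (algebraMap (𝓞 F) (𝓞 E) x) := by
    rw [← IsScalarTower.algebraMap_apply, ← IsScalarTower.algebraMap_apply]
  rw [h2] at h1
  have h3 : algebraMap (𝓞 F) (𝓞 E) x ∈ w.asIdeal := by
    have : x ∈ w.asIdeal.comap (algebraMap (𝓞 F) (𝓞 E)) := by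
      rw [h]
      exact hx
    exact this
  have h4 := (HeightOneSpectrum.valuation_lt_one_iff_mem w _ (K := E)).2 h3
  exact h4.ne h1

theorem h_spl : H_SPL := by
  intro p hpf F E _ _ _ _ _ ε β b σ hε hK v hv w hw g hg
  have hp : p.Prime := hpf.out
  obtain ⟨y, hy1, hy2⟩ := hv
  have := hK.gal
  have hεE : IsPrimitiveRoot (algebraMap F E ε) p := hε.map_of_injective (algebraMap F E).injective
  set e := v.asIdeal.ramificationIdx' w.asIdeal with he
  have he0 : e ≠ 0 := ram_ne hw
  set z : E := b * algebraMap F E (y : F) with hz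
  have hzp : z ^ p - 1 = algebraMap F E ((β : F) * (y : F) ^ p - 1) := by
    rw [hz, mul_pow, hK.root, map_sub, map_mul, map_pow, map_one]
  have h1 : w.valuation E (z ^ p - 1) < 1 := by
    rw [hzp, val_up hw]
    exact pow_lt_one₀ zero_le hy1 he0
  have h2 : w.valuation E (z ^ p - 1) ≤ w.valuation E (p : E) ^ 3 := by
    have e1 : (p : E) = algebraMap F E (p : F) := (map_natCast _ _).symm
    rw [hzp, e1, val_up hw, val_up hw, pow_right_comm]
    exact pow_le_pow_left₀ zero_le hy2 _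
  obtain ⟨i, hi⟩ := exists_close (w.valuation E) hp hεE h1 h2
  -- the Galois group is generated by σ
  have hcard : Nat.card (E ≃ₐ[F] E) = p := by
    rw [IsGalois.card_aut_eq_finrank, hK.deg]
  have hb : b ≠ 0 := by
    intro h0
    have := hK.root
    rw [h0, zero_pow hp.ne_zero] at this
    exact β.ne_zero ((map_eq_zero _).1 this.symm)
  have hσ1 : σ ≠ 1 := by
    intro h0
    have h3 := hK.act
    rw [h0, AlgEquiv.one_apply] at h3
    have h4 : algebraMap F E ε = 1 := by
      have : (algebraMap F E ε) * b = 1 * b := by rw [← h3, one_mul]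
      exact mul_right_cancel₀ hb this
    exact hεE.ne_one hp.one_lt h4
  obtain ⟨k, hk⟩ : ∃ k : ℕ, σ ^ k = g := by
    have := mem_powers_of_prime_card hcard hσ1 (g' := g)
    exact this
  have hσk : ∀ k : ℕ, (σ ^ k) b = (algebraMap F E ε) ^ k * b := by
    intro k
    induction k with
    | zero => simp
    | succ n ih =>
      rw [pow_succ', AlgEquiv.mul_apply, ih, map_mul, map_pow, AlgEquiv.commutes, hK.act, pow_succ]
      ring
  have h5 : w.valuation E ((algebraMap F E ε) ^ k * z - (algebraMap F E ε) ^ i) <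
      w.valuation E (1 - algebraMap F E ε) := by
    have e1 : (algebraMap F E ε) ^ k * z - (algebraMap F E ε) ^ i =
        g (z - (algebraMap F E ε) ^ i) := by
      rw [map_sub, map_pow, AlgEquiv.commutes, hz, map_mul, AlgEquiv.commutes, ← hk, hσk]
      ring
    rw [e1, hg]
    exact hi
  have h6 := close_unique (w.valuation E) hp hεE hi h5
  obtain ⟨m, rfl⟩ := h6
  rw [← hk, pow_mul, ← hcard, pow_card_eq_one', one_pow]

end main

end Pool.Agent.Helper48.REC
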